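import Pool.Agent.Q24.RB.Neg2

/-! MP_ded1c1b5_al, Q1: a profinite branch group commensurable with its `n`-th power need not have
a rigid level stabiliser isomorphic to `K ^ n` with `K` of finite index. -/

namespace Pool.Agent.Results.MP_ded1c1b5_al.RigidLevelPowers

open Pool.Agent.Q24.RB

/-- The branching sequence `(2, 3, 3, 3, ...)`. -/
def q23 : ℕ → ℕ := fun i => if i = 0 then 2 else 3

theorem q23_le : ∀ i, 2 ≤ q23 i := fun i => by
  rw [q23]; split_ifs <;> omega

theorem shift_q23 : shift q23 = fun _ => 3 := by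
  funext i
  show q23 (i + 1) = 3
  rw [q23, if_neg (Nat.succ_ne_zero i)]

theorem sp_q23 : Sp (AutT q23) (Fin 2 → AutT fun _ => 3) := by
  have h := sp_shift q23
  rw [shift_q23] at h
  exact h

theorem sp_three : Sp (AutT fun _ => 3) (Fin 3 → AutT fun _ => 3) := sp_shift fun _ => 3

theorem sp_q23_sq : Sp (AutT q23) (Fin 2 → AutT q23) := by
  -- `U ~ W^2 = W × W ~ W^3 × W = W^4 = (W^2)^2 ~ U^2`
  have h1 : Sp (Fin 2 → AutT fun _ => 3) ((Fin 1 → AutT fun _ => 3) × (Fin 1 → AutT fun _ => 3)) :=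
    Sp.pow_add 1 1
  have h2 : Sp ((Fin 1 → AutT fun _ => 3) × (Fin 1 → AutT fun _ => 3))
      ((Fin 3 → AutT fun _ => 3) × (Fin 1 → AutT fun _ => 3)) :=
    (Sp.pow_one.trans sp_three).prod (Sp.refl _)
  have h3 : Sp (Fin (3 + 1) → AutT fun _ => 3)
      ((Fin 3 → AutT fun _ => 3) × (Fin 1 → AutT fun _ => 3)) := Sp.pow_add 3 1
  have h4 : Sp (Fin (2 * 2) → AutT fun _ => 3) (Fin 2 → Fin 2 → AutT fun _ => 3) := Sp.pow_mul 2 2
  exact sp_q23.trans (h1.trans (h2.trans (h3.symm.trans (h4.trans (Sp.pi sp_q23.symm)))))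

/-- `U` is commensurable with `U ^ n`. -/
def CommPow {q : ℕ → ℕ} (U : Subgroup (LP q)) (n : ℕ) : Prop := Comm U (Fin n → U)

/-- `rist_U(m)` is isomorphic to `K ^ n` as a topological group. -/
def RistIsPow {q : ℕ → ℕ} (U : Subgroup (LP q)) (m n : ℕ) (K : Subgroup U) : Prop :=
  Nonempty (ristLevel U m ≃ₜ* (Fin n → K))

/-- `rist_U(m)` is isomorphic to `rist_W(k) ^ n` as a topological group. -/
def RistIsPowRist {q q' : ℕ → ℕ} (U : Subgroup (LP q)) (m n : ℕ) (W : Subgroup (LP q')) (k : ℕ) :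
    Prop :=
  Nonempty (ristLevel U m ≃ₜ* (Fin n → ristLevel W k))

/-- The automorphism group of the rooted binary tree. -/
def Bin : Subgroup (LP fun _ => 2) := AutT fun _ => 2

/-- The automorphism group of the rooted ternary tree. -/
def Ter : Subgroup (LP fun _ => 3) := AutT fun _ => 3

/-- The automorphism group of the rooted tree with branching sequence `(2, 3, 3, 3, ...)`. -/
def Aut23 : Subgroup (LP q23) := AutT q23

/-- **Q1 has a negative answer.**  (1) The automorphism group of the rooted binary tree is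
commensurable with all its powers, but if `n` is not a power of two, none of its rigid level
stabilisers is isomorphic to `K ^ n` for a subgroup `K`.  (2) The automorphism group of the rooted
tree with branching sequence `(2, 3, 3, ...)` is commensurable with its square, every rigid level
stabiliser of positive level is a square, but none is `K ^ 2` with `K` of finite index. -/
theorem result :
    (IsBranch Bin ∧ (∀ n, 1 ≤ n → CommPow Bin n) ∧
      ∀ n, (¬ ∃ k, n = 2 ^ k) → ∀ m (K : Subgroup Bin), ¬ RistIsPow Bin m n K) ∧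
    (IsBranch Aut23 ∧ (∀ n, 1 ≤ n → CommPow Aut23 n) ∧
      (∀ m, RistIsPowRist Aut23 (m + 1) 2 Ter m) ∧
      ∀ m (K : Subgroup Aut23), K.FiniteIndex → ¬ RistIsPow Aut23 m 2 K) := by
  refine ⟨⟨autT_branch fun _ => le_rfl, ?_, ?_⟩, autT_branch q23_le, ?_, ?_, ?_⟩
  · intro n hn
    obtain ⟨k, rfl⟩ : ∃ k, n = k + 1 := ⟨n - 1, by omega⟩
    exact Comm.of_sp (Sp.all_pow (sp_shift fun _ => 2) k)
  · rintro n hn m K ⟨φ⟩
    refine hn ?_
    have h1 := dvd_of_pow (q := fun _ => 2) (fun _ => le_rfl) m n K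
      ((ristLevelIso (AutT fun _ => 2) m).trans φ).toMulEquiv
    rw [Finset.prod_const, Finset.card_range] at h1
    obtain ⟨k, -, hk⟩ := (Nat.dvd_prime_pow Nat.prime_two).mp h1
    exact ⟨k, hk⟩
  · intro n hn
    obtain ⟨k, rfl⟩ : ∃ k, n = k + 1 := ⟨n - 1, by omega⟩
    exact Comm.of_sp (Sp.all_pow sp_q23_sq k)
  · intro m
    have h := ristLevel_pow q23_le m
    rw [shift_q23] at h
    exact h
  · rintro m (K : Subgroup (AutT q23)) hK ⟨φ⟩
    have hK' : @Subgroup.FiniteIndex (AutT q23) _ K := hK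
    have hopen : IsOpen (K : Set (AutT q23)) := open_of_iso (q := q23) q23_le m 1 K φ
    refine not_square q23_le rfl (fun i => ?_) m K hopen ((ristLevelIso (AutT q23) m).trans φ)
    rw [q23, if_neg (Nat.succ_ne_zero i)]
    exact ⟨1, rfl⟩

end Pool.Agent.Results.MP_ded1c1b5_al.RigidLevelPowers
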